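import Pool.Agent.Helper28.Sus.Goals
import Pool.Agent.Helper78.Mpc.MMain

/-!
# Project SUS, packet SUS-COD: the codes of the functions of a machine
-/

namespace Pool.Agent.Helper88.Sus

open Pool.Agent.Helper65.LinSpace Pool.Agent.Helper78.Mpc Pool.Agent.Helper28.Ram
open Pool.Agent.Helper28.Sus

theorem toNat_mod (b : Bool) : (b.toNat + 2 * 1) % 2 = b.toNat := by
  cases b <;> rfl

theorem num_single (b : Bool) : num [b] = b.toNat + 2 * 1 := rfl

theorem num_nil : num [] = 1 := rfl

theorem num_cons (b : Bool) (v : List Bool) : num (b :: v) = b.toNat + 2 * num v := rfl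

theorem num_ne (w : List Bool) : num w ≠ 0 := by
  induction w with
  | nil => rw [num_nil]; norm_num
  | cons b v ih => rw [num_cons]; omega

theorem mul_and (a b : Bool) : a.toNat * b.toNat = (a && b).toNat := by
  cases a <;> cases b <;> rfl

/-- Packet SUS-COD. -/
theorem cod : COD_stmt := by
  intro A
  obtain ⟨eA, cA, hA⟩ := fnN_spec A.addr_lin
  obtain ⟨eN, cN, hN⟩ := fnN_spec A.next_lin
  obtain ⟨eW, cW, hW⟩ := fnN_spec A.write_lin
  obtain ⟨eK, cK, hK⟩ := fnN_spec A.ask_lin
  obtain ⟨eG, cG, hG⟩ := fnN_spec A.msg_lin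
  obtain ⟨eR, cR, hR⟩ := fnN_spec A.reset_lin
  obtain ⟨B0, ini, hini⟩ := exists_ini A.init
  refine ⟨⟨eA, eN, eW, eK, eG, eR, ini, B0, num A.start⟩, cA + cN + cW + cK + cG + cR, ?_⟩
  intro w y P he hx hy hΛ hβ hB hB'
  have hgood : ∀ (f : List Bool → List Bool) (e c' T : ℕ), c' ≤ cA + cN + cW + cK + cG + cR →
      (∀ (w : List Bool) (S Λ β B : ℕ), c' * (S + w.length + 2) ≤ Λ →
        c' + Λ + S + w.length + 1 ≤ β → 2 ^ (S + 1) ≤ B →
        fnN e S Λ β B (num w) = if (f w).length ≤ S then num (f w) else 0) →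
      T ≤ P.S + P.Z + 1 → 2 ^ (T + 1) ≤ P.B → ∀ u : List Bool,
        u.length ≤ 4 * P.S + P.Z + 2 →
        fnN e T P.Λ P.β P.B (num u) = if (f u).length ≤ T then num (f u) else 0 := by
    intro f e c' T hc' hf hT hTB u hu
    refine hf u _ _ _ _ ?_ ?_ hTB
    · refine le_trans ?_ hΛ
      exact Nat.mul_le_mul hc' (by omega)
    · omega
  have pS : 2 ^ (P.S + 1) ≤ P.B := le_trans (Nat.pow_le_pow_right (by norm_num) (by omega)) hB
  have pZ : 2 ^ (P.Z + 1) ≤ P.B := le_trans (Nat.pow_le_pow_right (by norm_num) (by omega)) hB'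
  have p1 : 2 ^ (1 + 1) ≤ P.B := le_trans (Nat.pow_le_pow_right (by norm_num) (by omega)) hB
  have gA := hgood A.addr eA cA P.S (by omega) hA (by omega) pS
  have gN := hgood A.next eN cN P.S (by omega) hN (by omega) pS
  have gW := hgood A.write eW cW P.Z (by omega) hW (by omega) pZ
  have gK := hgood _ eK cK 1 (by omega) hK (by omega) p1
  have gG := hgood _ eG cG 1 (by omega) hG (by omega) p1
  have gR := hgood _ eR cR 1 (by omega) hR (by omega) p1
  have eqA : P.eA = eA := congrArg Cde.eA he
  have eqN : P.eN = eN := congrArg Cde.eN he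
  have eqW : P.eW = eW := congrArg Cde.eW he
  have eqK : P.eK = eK := congrArg Cde.eK he
  have eqG : P.eG = eG := congrArg Cde.eG he
  have eqR : P.eR = eR := congrArg Cde.eR he
  have eqI : P.ini = ini := congrArg Cde.ini he
  have eqB : P.B0 = B0 := congrArg Cde.B0 he
  have eqst : P.st = num A.start := congrArg Cde.st he
  have kK : ∀ q : List Bool, q.length ≤ P.S → P.fK (num q) = (A.ask q).toNat := by
    intro q hq
    unfold Prm.fK
    rw [eqK, gK q (by omega), if_pos (by simp), num_single, toNat_mod]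
  have kG : ∀ q : List Bool, q.length ≤ P.S → P.fG (num q) = (A.msg q).toNat := by
    intro q hq
    unfold Prm.fG
    rw [eqG, gG q (by omega), if_pos (by simp), num_single, toNat_mod]
  have kR : ∀ q i : List Bool, q.length ≤ P.S → i.length ≤ P.S →
      P.fR (num q) (num i) = (A.reset (sd q ++ sd i)).toNat := by
    intro q i hq hi
    unfold Prm.fR
    rw [sdN_num, sdN_num, catN_num, eqR, gR (sd q ++ sd i) ?_, if_pos (by simp), num_single,
      toNat_mod]
    rw [List.length_append, length_sd, length_sd]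
    omega
  refine ⟨?_, kK, kG, kR, ?_, ?_, ?_, eqst, ?_, hx, hy⟩
  · intro q hq
    unfold Prm.fA
    rw [eqA]
    exact gA q (by omega)
  · intro q v b hq hv
    unfold Prm.fN
    rw [ifz_ne (num_ne v), kK q hq, mul_and, sdN_num]
    have h1 : 2 * num v + (A.ask q && b).toNat = num ((A.ask q && b) :: v) := by
      rw [num_cons]
      omega
    rw [h1, catN_num, eqN]
    refine gN _ ?_
    rw [List.length_append, length_sd, List.length_cons]
    omega
  · intro q i c hq hi hc
    unfold Prm.fW
    have h1 : ifz (P.fR (num q) (num i)) (num c) 1 =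
        num (if A.reset (sd q ++ sd i) then [] else c) := by
      rw [kR q i hq hi]
      cases A.reset (sd q ++ sd i) with
      | false => exact ifz_zero _ _
      | true => exact ifz_ne one_ne_zero _ _
    rw [h1, sdN_num, sdN_num, catN_num, catN_num, eqW]
    refine gW _ ?_
    have h2 : (if A.reset (sd q ++ sd i) then [] else c : List Bool).length ≤ P.Z := by
      split_ifs
      · exact Nat.zero_le _
      · exact hc
    rw [List.length_append, List.length_append, length_sd, length_sd]
    omega
  · intro q i hq hi hr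
    unfold Prm.fW
    have h1 : P.fR (num q) (num i) = 1 := by
      rw [kR q i hq hi, hr]
      rfl
    rw [h1, ifz_ne one_ne_zero, ifz_ne one_ne_zero]
  · intro a b
    rw [eqB, eqI]
    exact hini a b

end Pool.Agent.Helper88.Sus
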